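import Pool.Agent.Lib.MP_35c2eb_co.Graph
import Pool.Agent.Lib.MP_35c2eb_co.Poset

set_option autoImplicit false

/-!
Explicit constants in the theorem on posets of height at most `2 r + 2`.
-/

namespace Pool.Agent.Lib.MP_35c2eb_co.Ins

open Finset Classical

/-- `q` with `12 (d + 1) ^ 3 q ≤ 2 ^ q`. -/
lemma twelve_mul_le (d : ℕ) :
    12 * (d + 1) ^ 3 * (4 * Nat.log 2 (d + 1) + 12) ≤ 2 ^ (4 * Nat.log 2 (d + 1) + 12) := by
  obtain ⟨m, hm⟩ : ∃ m, m = Nat.log 2 (d + 1) := ⟨_, rfl⟩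
  rw [← hm]
  have h1 : d + 1 ≤ 2 ^ (m + 1) := by
    rw [hm]
    exact (Nat.lt_pow_succ_log_self (by norm_num) (d + 1)).le
  have h2 : m + 1 ≤ 2 ^ m := Nat.lt_two_pow_self
  have h3 : (d + 1) ^ 3 ≤ (2 ^ (m + 1)) ^ 3 := Nat.pow_le_pow_left h1 3
  calc 12 * (d + 1) ^ 3 * (4 * m + 12)
      ≤ 12 * (2 ^ (m + 1)) ^ 3 * (12 * (m + 1)) := by
        apply Nat.mul_le_mul
        · exact Nat.mul_le_mul_left _ h3
        · omega
    _ ≤ 12 * (2 ^ (m + 1)) ^ 3 * (12 * 2 ^ m) := by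
        apply Nat.mul_le_mul_left
        exact Nat.mul_le_mul_left _ h2
    _ = 1152 * 2 ^ (4 * m) := by ring
    _ ≤ 4096 * 2 ^ (4 * m) := by
        apply Nat.mul_le_mul_right
        norm_num
    _ = 2 ^ (4 * m + 12) := by rw [pow_add]; ring

/-- The explicit choice of the parameter `C`. -/
lemma explicit_C (d : ℕ) :
    (3 * (((d + 1) * (4 * Nat.log 2 (d + 1) + 12)) * (2 * (d + 1)) ^ 2)) ^ d <
      2 ^ ((d + 1) * (4 * Nat.log 2 (d + 1) + 12)) := by
  obtain ⟨q, hq⟩ : ∃ q, q = 4 * Nat.log 2 (d + 1) + 12 := ⟨_, rfl⟩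
  have h := twelve_mul_le d
  rw [← hq] at h ⊢
  have h1 : 3 * (((d + 1) * q) * (2 * (d + 1)) ^ 2) = 12 * (d + 1) ^ 3 * q := by ring
  rw [h1]
  calc (12 * (d + 1) ^ 3 * q) ^ d ≤ (2 ^ q) ^ d := Nat.pow_le_pow_left h d
    _ = 2 ^ (d * q) := by rw [← pow_mul, mul_comm]
    _ < 2 ^ ((d + 1) * q) := by
        apply Nat.pow_lt_pow_right (by norm_num)
        have : 0 < q := by omega
        nlinarith

/-- The lemma `core` with an explicit constant. -/
lemma core_explicit (d : ℕ) (W : Type) [Fintype W] (H : SimpleGraph W)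
    (hc : 600 * (d + 1) ^ 2 * (Nat.log 2 (d + 1) + 1) * Fintype.card W < Nat.card H.edgeSet) :
    ∃ (A B : Finset W) (M : W → Finset W), Disjoint A B ∧
      (∀ a ∈ A, M a ⊆ B ∧ ∀ b ∈ M a, H.Adj a b) ∧
      ¬ ∃ g : Fin d → W → ℕ, ∀ a ∈ A, ∀ b ∈ B, (b ∈ M a ↔ ∀ i, g i b ≤ g i a) := by
  have hC := explicit_C d
  obtain ⟨C, hCdef⟩ : ∃ C, C = (d + 1) * (4 * Nat.log 2 (d + 1) + 12) := ⟨_, rfl⟩
  have hC1 : 1 ≤ C := by
    rw [hCdef]
    exact Nat.one_le_iff_ne_zero.2 (Nat.mul_ne_zero (by omega) (by omega))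
  rw [← hCdef] at hC
  obtain ⟨k, hk⟩ : ∃ k, k = 2 * (d + 1) := ⟨_, rfl⟩
  rw [← hk] at hC
  have hc' : (4 * (4 * k * (C + 1)) + k) * Fintype.card W < Nat.card H.edgeSet := by
    refine lt_of_le_of_lt ?_ hc
    apply Nat.mul_le_mul_right
    rw [hk, hCdef]
    obtain ⟨L, hL⟩ : ∃ L, L = Nat.log 2 (d + 1) := ⟨_, rfl⟩
    rw [← hL]
    have e1 : 4 * (4 * (2 * (d + 1)) * ((d + 1) * (4 * L + 12) + 1)) + 2 * (d + 1) =
      (d + 1) ^ 2 * (128 * L + 384) + 34 * (d + 1) := by ring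
    rw [e1]
    have e2 : 34 * (d + 1) ≤ 34 * (d + 1) ^ 2 := by nlinarith
    have e3 : 600 * (d + 1) ^ 2 * (L + 1) = (d + 1) ^ 2 * (600 * L + 600) := by ring
    rw [e3]
    have e4 : (d + 1) ^ 2 * (600 * L + 600) =
      (d + 1) ^ 2 * (128 * L + 384) + (d + 1) ^ 2 * (472 * L + 216) := by ring
    rw [e4]
    have e5 : 34 * (d + 1) ^ 2 ≤ (d + 1) ^ 2 * (472 * L + 216) := by
      rw [mul_comm]
      apply Nat.mul_le_mul_left
      omega
    omega
  obtain ⟨s, hs, hdeg⟩ := exists_dense H _ hc'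
  obtain ⟨A0, B, hd, hB, hA0, hk'⟩ := exists_AB H k C (by omega) s hs hdeg
  obtain ⟨A, hA, hAc⟩ := exists_subset_card_eq hA0
  have hN : ∀ a : A, ∃ N : Fin k → B, Function.Injective N ∧ ∀ j, H.Adj a (N j) := by
    intro a
    obtain ⟨t, ht, htc⟩ := exists_subset_card_eq (hk' a (hA a.2))
    let e := (t.equivFinOfCardEq htc).symm
    have hmem : ∀ j, ((e j : t) : W) ∈ B ∧ H.Adj a (e j) := by
      intro j
      have := ht (e j).2
      rwa [mem_filter] at this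
    refine ⟨fun j => ⟨(e j : W), (hmem j).1⟩, ?_, fun j => (hmem j).2⟩
    intro j j' hjj
    have h1 : ((e j : t) : W) = (e j' : t) := by simpa using hjj
    exact e.injective (Subtype.ext h1)
  choose N hNinj hNadj using hN
  obtain ⟨z, hz⟩ := exists_choice (A := A) (β := B) hk hC hC1
    (by rw [Fintype.card_coe]; exact card_pos.2 hB)
    (by rw [Fintype.card_coe, Fintype.card_coe]; exact hAc) N
  refine ⟨A, B, fun a => if ha : a ∈ A then
    (univ.filter (fun j => j ≠ z ⟨a, ha⟩)).image (fun j => (N ⟨a, ha⟩ j : W)) else ∅, ?_, ?_, ?_⟩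
  · exact disjoint_of_subset_left hA hd
  · intro a ha
    simp only [dif_pos ha]
    constructor
    · intro b hb
      rw [mem_image] at hb
      obtain ⟨j, -, rfl⟩ := hb
      exact (N ⟨a, ha⟩ j).2
    · intro b hb
      rw [mem_image] at hb
      obtain ⟨j, -, rfl⟩ := hb
      exact hNadj ⟨a, ha⟩ j
  · rintro ⟨g, hg⟩
    apply hz
    refine ⟨fun i b => g i b, ?_⟩
    intro a
    have h1 := hg a a.2 (N a (z a)) (N a (z a)).2
    simp only [dif_pos a.2] at h1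
    have h2 : ¬ ((N a (z a) : W) ∈ (univ.filter (fun j => j ≠ z ⟨a, a.2⟩)).image
        (fun j => (N ⟨a, a.2⟩ j : W))) := by
      intro h
      rw [mem_image] at h
      obtain ⟨j, hj, hjz⟩ := h
      rw [mem_filter] at hj
      exact hj.2 (hNinj a (Subtype.ext hjz))
    rw [h1] at h2
    push Not at h2
    obtain ⟨i, hi⟩ := h2
    refine ⟨i, fun j hj => ?_⟩
    have h3 := hg a a.2 (N a j) (N a j).2
    simp only [dif_pos a.2] at h3
    have h4 := h3.1 (by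
      rw [mem_image]
      exact ⟨j, by simpa using hj, rfl⟩) i
    exact lt_of_le_of_lt h4 hi

/-- The local form: posets of height at most `2 r + 2` whose cover graph maps injectively into
`G` and which have dimension at most `d` bound the density of the `r`-shallow minors of `G`. -/
theorem local_bound (r d : ℕ) (V W : Type) [Fintype V] [Fintype W]
    (G : SimpleGraph V) (H : SimpleGraph W)
    (hd : ∀ (P : Type) [Fintype P] [PartialOrder P],
      (∀ s : Finset P, IsChain (· ≤ ·) (s : Set P) → s.card ≤ 2 * r + 2) →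
      (∃ ι : P → V, Function.Injective ι ∧ ∀ x y : P, x ⋖ y → G.Adj (ι x) (ι y)) →
      ∃ f : Fin d → P → ℕ, (∀ i, Function.Injective (f i)) ∧
        ∀ x y : P, x ≤ y ↔ ∀ i, f i x ≤ f i y)
    (hB : ∃ B : W → Set V, (∀ w w', w ≠ w' → Disjoint (B w) (B w')) ∧
        (∀ w, ∃ v ∈ B w, ∀ u ∈ B w, ∃ p : G.Walk v u,
            p.length ≤ r ∧ ∀ x ∈ p.support, x ∈ B w) ∧
        (∀ w w', H.Adj w w' → ∃ u ∈ B w, ∃ u' ∈ B w', G.Adj u u')) :
    Nat.card H.edgeSet ≤ 600 * (d + 1) ^ 2 * (Nat.log 2 (d + 1) + 1) * Fintype.card W := by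
  obtain ⟨Br, hdisj, hr, hedge⟩ := hB
  by_contra hcon
  rw [not_le] at hcon
  obtain ⟨A, B, M, hAB, hM, hno⟩ := core_explicit d W H hcon
  apply hno
  obtain ⟨P, fP, oP, ι, hι, hcov, hht, cc, hcc⟩ :=
    exists_poset G r Br hdisj hr A B M hAB
      (fun a ha => (hM a ha).1) (fun a ha b hb => hedge b a ((hM a ha).2 b hb).symm)
  obtain ⟨f, -, hf⟩ := hd P hht ⟨ι, hι, hcov⟩
  refine ⟨fun i w => match cc w with
    | some x => f i x
    | none => 0, ?_⟩
  intro a ha b hb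
  obtain ⟨x, y, hx, hy, hxy⟩ := hcc a ha b hb
  rw [hxy, hf]
  simp only [hx, hy]

end Pool.Agent.Lib.MP_35c2eb_co.Ins
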