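import Pool.Agent.Lib.MP_35c2eb_co.Count
import Pool.Agent.Lib.MP_35c2eb_co.Poset

/-!
# A bipartite pattern with no realiser: almost linear density

A graph with more than `2 q |W|` edges, `(3 q) ^ d < 2 ^ q`, contains a cut with more than `q |W|` edges. Choose
`q |W|` of them. A set `T` of the chosen edges which is the pattern of `d` functions is the complement of the union
of `d` sign patterns of functions `W → ℕ` on these edges; there are at most `(3 q) ^ |W|` sign patterns
(`signFam_card`), so at most `(3 q) ^ (d |W|) < 2 ^ (q |W|)` such sets `T`.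
-/

set_option autoImplicit false

namespace Pool.Agent.Lib.MP_35c2eb_co.InsLinear

open Finset Classical

/-- `q = 4 (d + 1) L` is large enough, `L = log2 (d + 1) + 1`. -/
theorem explicit_q (d : ℕ) :
    (3 * (4 * (d + 1) * (Nat.log 2 (d + 1) + 1))) ^ d <
      2 ^ (4 * (d + 1) * (Nat.log 2 (d + 1) + 1)) := by
  obtain ⟨m, hm⟩ : ∃ m, m = d + 1 := ⟨_, rfl⟩
  obtain ⟨L, hL⟩ : ∃ L, L = Nat.log 2 (d + 1) + 1 := ⟨_, rfl⟩
  have h1 : m < 2 ^ L := by
    rw [hm, hL]
    exact Nat.lt_pow_succ_log_self (by norm_num) _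
  have hL1 : 1 ≤ L := by omega
  rw [← hL, ← hm]
  have h3 : 3 * (4 * m * L) ≤ 2 ^ (4 * L) := by
    obtain ⟨t, rfl⟩ : ∃ t, L = t + 1 := ⟨L - 1, by omega⟩
    rcases Nat.eq_zero_or_pos t with rfl | ht
    · have : m ≤ 1 := by
        have : m < 2 := by simpa using h1
        omega
      norm_num
      omega
    · have h2 : 2 * (t + 1) ≤ 2 ^ (t + 1) := by
        have : t < 2 ^ t := Nat.lt_two_pow_self
        rw [pow_succ]
        omega
      have e1 : 3 * (4 * m * (t + 1)) = m * (6 * (2 * (t + 1))) := by ring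
      have e2 : 2 ^ (4 * (t + 1)) = 2 ^ (t + 1) * (2 ^ (2 * (t + 1)) * 2 ^ (t + 1)) := by
        rw [← pow_add, ← pow_add]
        congr 1
        ring
      have e3 : 6 ≤ 2 ^ (2 * (t + 1)) := by
        calc 6 ≤ 2 ^ 4 := by norm_num
          _ ≤ 2 ^ (2 * (t + 1)) := Nat.pow_le_pow_right (by norm_num) (by omega)
      rw [e1, e2]
      exact Nat.mul_le_mul h1.le (Nat.mul_le_mul e3 h2)
  calc (3 * (4 * m * L)) ^ d ≤ (2 ^ (4 * L)) ^ d := Nat.pow_le_pow_left h3 d
    _ = 2 ^ (4 * L * d) := by rw [← pow_mul]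
    _ < 2 ^ (4 * m * L) := by
        apply Nat.pow_lt_pow_right (by norm_num)
        rw [hm]
        nlinarith

variable {W : Type} [Fintype W]

/-- The number of the two-colourings in which `a` is red and `b` is blue. -/
theorem card_colour (a b : W) (hab : a ≠ b) :
    4 * (univ.filter fun f : W → Bool => f a = true ∧ f b = false).card =
      2 ^ Fintype.card W := by
  let t : W → Finset Bool := fun w => if w = a then {true} else if w = b then {false} else univ
  have h1 : (univ.filter fun f : W → Bool => f a = true ∧ f b = false) = Fintype.piFinset t := by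
    ext f
    rw [mem_filter, Fintype.mem_piFinset]
    constructor
    · rintro ⟨-, h1, h2⟩ w
      by_cases hwa : w = a
      · subst hwa
        simp [t, h1]
      · by_cases hwb : w = b
        · subst hwb
          simp [t, hwa, h2]
        · simp [t, hwa, hwb]
    · intro h
      refine ⟨mem_univ _, ?_, ?_⟩
      · simpa [t] using h a
      · simpa [t, hab.symm] using h b
  have h2 : ∀ w : W, (t w).card * ((if w = a then 2 else 1) * (if w = b then 2 else 1)) = 2 := by
    intro w
    by_cases hwa : w = a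
    · subst hwa
      simp [t, hab]
    · by_cases hwb : w = b
      · subst hwb
        simp [t, hwa]
      · simp [t, hwa, hwb]
  have h3 : ∏ w : W, ((t w).card * ((if w = a then 2 else 1) * (if w = b then 2 else 1))) =
      ∏ _w : W, 2 := prod_congr rfl fun w _ => h2 w
  rw [prod_mul_distrib, prod_mul_distrib, prod_ite_eq' univ a, prod_ite_eq' univ b,
    if_pos (mem_univ a), if_pos (mem_univ b), prod_const, card_univ] at h3
  rw [h1, Fintype.card_piFinset, ← h3]
  ring

/-- Half of the edges are in a cut. -/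
theorem exists_cut (H : SimpleGraph W) : ∃ f : W → Bool, Nat.card H.edgeSet ≤
    2 * (univ.filter fun x : W × W => H.Adj x.1 x.2 ∧ f x.1 = true ∧ f x.2 = false).card := by
  by_contra hcon
  push Not at hcon
  have h1 : 2 * Nat.card H.edgeSet = (univ.filter fun x : W × W => H.Adj x.1 x.2).card := by
    have h2 : 2 * H.edgeFinset.card = ∑ v, H.degree v := (H.sum_degrees_eq_twice_card_edges).symm
    have h3 : Nat.card H.edgeSet = H.edgeFinset.card := by
      rw [Nat.card_eq_fintype_card, SimpleGraph.edgeFinset, Set.toFinset_card]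
    rw [h3, h2]
    simp_rw [← SimpleGraph.card_neighborFinset_eq_degree, card_filter]
    rw [← univ_product_univ, sum_product]
    refine sum_congr rfl fun v _ => ?_
    rw [← card_filter]
    congr 1
    ext u
    simp
  have h2 : 4 * ∑ f : W → Bool,
      (univ.filter fun x : W × W => H.Adj x.1 x.2 ∧ f x.1 = true ∧ f x.2 = false).card =
      2 * Nat.card H.edgeSet * 2 ^ Fintype.card W := by
    rw [h1]
    simp_rw [card_filter]
    rw [sum_comm, mul_sum, sum_mul]
    refine sum_congr rfl fun x _ => ?_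
    by_cases hx : H.Adj x.1 x.2
    · simp only [hx, true_and, if_true, one_mul]
      rw [← card_filter]
      exact card_colour x.1 x.2 hx.ne
    · simp [hx]
  have h3 : ∑ f : W → Bool, 2 *
      (univ.filter fun x : W × W => H.Adj x.1 x.2 ∧ f x.1 = true ∧ f x.2 = false).card <
      ∑ _f : W → Bool, Nat.card H.edgeSet :=
    sum_lt_sum_of_nonempty univ_nonempty fun f _ => hcon f
  rw [← mul_sum, sum_const, card_univ, Fintype.card_fun, Fintype.card_bool, smul_eq_mul] at h3
  have h4 : 4 * ∑ f : W → Bool,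
      (univ.filter fun x : W × W => H.Adj x.1 x.2 ∧ f x.1 = true ∧ f x.2 = false).card <
      2 * Nat.card H.edgeSet * 2 ^ Fintype.card W := by
    calc _ = 2 * (2 * ∑ f : W → Bool, (univ.filter fun x : W × W =>
          H.Adj x.1 x.2 ∧ f x.1 = true ∧ f x.2 = false).card) := by ring
      _ < 2 * (2 ^ Fintype.card W * Nat.card H.edgeSet) :=
          Nat.mul_lt_mul_of_pos_left h3 (by norm_num)
      _ = _ := by ring
  omega

/-- A graph with many edges contains a bipartite subgraph whose height 2 poset has large dimension. -/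
theorem core_explicit (d q : ℕ) (hq1 : 1 ≤ q) (hq : (3 * q) ^ d < 2 ^ q) (H : SimpleGraph W)
    (hc : 2 * q * Fintype.card W < Nat.card H.edgeSet) :
    ∃ (A B : Finset W) (M : W → Finset W), Disjoint A B ∧
      (∀ a ∈ A, M a ⊆ B ∧ ∀ b ∈ M a, H.Adj a b) ∧
      ¬ ∃ g : Fin d → W → ℕ, ∀ a ∈ A, ∀ b ∈ B, (b ∈ M a ↔ ∀ i, g i b ≤ g i a) := by
  obtain ⟨f, hf⟩ := exists_cut H
  have hlt : q * Fintype.card W <
      (univ.filter fun x : W × W => H.Adj x.1 x.2 ∧ f x.1 = true ∧ f x.2 = false).card := by
    have : 2 * (q * Fintype.card W) = 2 * q * Fintype.card W := by ring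
    omega
  obtain ⟨E, hE, hEc⟩ := exists_subset_card_eq hlt.le
  have hn : 1 ≤ Fintype.card W := by
    obtain ⟨x, -⟩ := card_pos.1 (lt_of_le_of_lt (Nat.zero_le _) hlt)
    exact Fintype.card_pos_iff.2 ⟨x.1⟩
  have hEm : ∀ x ∈ E, H.Adj x.1 x.2 ∧ f x.1 = true ∧ f x.2 = false := fun x hx =>
    (mem_filter.1 (hE hx)).2
  by_contra hcon
  push Not at hcon
  -- every set of chosen edges is a pattern
  have key : ∀ T : Finset E, ∃ g : Fin d → W → ℕ, ∀ x : E,
      x ∈ T ↔ ∀ i, g i (x : W × W).2 ≤ g i (x : W × W).1 := by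
    intro T
    obtain ⟨g, hg⟩ := hcon (univ.filter fun w => f w = true) (univ.filter fun w => f w = false)
      (fun a => univ.filter fun b => ∃ h : (a, b) ∈ E, (⟨(a, b), h⟩ : E) ∈ T) (by
        rw [disjoint_left]
        intro w hw hw'
        rw [mem_filter] at hw hw'
        rw [hw.2] at hw'
        exact absurd hw'.2 (by simp)) (by
        intro a _
        refine ⟨fun b hb => ?_, fun b hb => ?_⟩
        · rw [mem_filter] at hb
          obtain ⟨-, h, -⟩ := hb
          rw [mem_filter]
          exact ⟨mem_univ _, (hEm _ h).2.2⟩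
        · rw [mem_filter] at hb
          obtain ⟨-, h, -⟩ := hb
          exact (hEm _ h).1)
    refine ⟨g, fun x => ?_⟩
    have h1 := hEm x x.2
    have h2 := hg (x : W × W).1 (by rw [mem_filter]; exact ⟨mem_univ _, h1.2.1⟩)
      (x : W × W).2 (by rw [mem_filter]; exact ⟨mem_univ _, h1.2.2⟩)
    rw [← h2, mem_filter]
    constructor
    · intro hx
      exact ⟨mem_univ _, x.2, hx⟩
    · rintro ⟨-, _, hx⟩
      exact hx
  choose g hg using key
  let p : E → W := fun x => (x : W × W).1
  let r : E → W := fun x => (x : W × W).2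
  let S : Finset E → Fin d → signFam p r := fun T i =>
    ⟨univ.filter (fun x => g T i (p x) < g T i (r x)), by
      rw [signFam, mem_filter]
      exact ⟨mem_univ _, g T i, fun x => by simp⟩⟩
  have hinj : Function.Injective S := by
    intro T T' hTT
    ext x
    rw [hg T x, hg T' x]
    refine forall_congr' fun i => ?_
    have h1 : (S T i).1 = (S T' i).1 := by rw [hTT]
    have h2 : x ∈ (S T i).1 ↔ x ∈ (S T' i).1 := by rw [h1]
    simp only [S, mem_filter, mem_univ, true_and, p, r] at h2
    rw [← not_lt, ← not_lt, h2]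
  have hcard := Fintype.card_le_of_injective _ hinj
  rw [Fintype.card_finset, Fintype.card_fun, Fintype.card_fin, Fintype.card_coe,
    Fintype.card_coe, hEc] at hcard
  have hfam : (signFam p r).card ≤ (3 * q) ^ Fintype.card W := by
    refine (signFam_card p r).trans ?_
    rw [Fintype.card_coe, hEc]
    exact sum_choose_le _ q hq1
  have h1 : 2 ^ (q * Fintype.card W) ≤ ((3 * q) ^ Fintype.card W) ^ d :=
    hcard.trans (Nat.pow_le_pow_left hfam d)
  have h2 : ((3 * q) ^ Fintype.card W) ^ d = ((3 * q) ^ d) ^ Fintype.card W := by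
    rw [← pow_mul, ← pow_mul, mul_comm (Fintype.card W) d]
  rw [h2, pow_mul] at h1
  have h3 : ((3 * q) ^ d) ^ Fintype.card W < (2 ^ q) ^ Fintype.card W :=
    Nat.pow_lt_pow_left hq (by omega)
  omega

/-- The local form, with a bound which is almost linear in the dimension. -/
theorem local_bound_linear (r d : ℕ) (V W : Type) [Fintype V] [Fintype W]
    (G : SimpleGraph V) (H : SimpleGraph W)
    (hd : ∀ (P : Type) [Fintype P] [PartialOrder P],
      (∀ s : Finset P, IsChain (· ≤ ·) (s : Set P) → s.card ≤ 2 * r + 2) →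
      (∃ ι : P → V, Function.Injective ι ∧ ∀ x y : P, x ⋖ y → G.Adj (ι x) (ι y)) →
      ∃ f : Fin d → P → ℕ, (∀ i, Function.Injective (f i)) ∧
        ∀ x y : P, x ≤ y ↔ ∀ i, f i x ≤ f i y)
    (hB : ∃ B : W → Set V, (∀ w w', w ≠ w' → Disjoint (B w) (B w')) ∧
        (∀ w, ∃ v ∈ B w, ∀ u ∈ B w, ∃ p : G.Walk v u,
            p.length ≤ r ∧ ∀ x ∈ p.support, x ∈ B w) ∧
        (∀ w w', H.Adj w w' → ∃ u ∈ B w, ∃ u' ∈ B w', G.Adj u u')) :
    Nat.card H.edgeSet ≤ 8 * (d + 1) * (Nat.log 2 (d + 1) + 1) * Fintype.card W := by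
  obtain ⟨Br, hdisj, hr, hedge⟩ := hB
  by_contra hcon
  rw [not_le] at hcon
  obtain ⟨A, B, M, hAB, hM, hno⟩ := core_explicit d
    (4 * (d + 1) * (Nat.log 2 (d + 1) + 1)) (by
      have : 1 * 1 ≤ 4 * (d + 1) * (Nat.log 2 (d + 1) + 1) :=
        Nat.mul_le_mul (by omega) (by omega)
      omega) (explicit_q d) H (by
      have : 2 * (4 * (d + 1) * (Nat.log 2 (d + 1) + 1)) = 8 * (d + 1) * (Nat.log 2 (d + 1) + 1) := by
        ring
      rw [this]
      exact hcon)
  apply hno
  obtain ⟨P, fP, oP, ι, hι, hcov, hht, cc, hcc⟩ :=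
    exists_poset G r Br hdisj hr A B M hAB
      (fun a ha => (hM a ha).1) (fun a ha b hb => hedge b a ((hM a ha).2 b hb).symm)
  obtain ⟨f, -, hf⟩ := hd P hht ⟨ι, hι, hcov⟩
  refine ⟨fun i w => match cc w with
    | some x => f i x
    | none => 0, ?_⟩
  intro a ha b hb
  obtain ⟨x, y, hx, hy, hxy⟩ := hcc a ha b hb
  rw [hxy, hf]
  simp only [hx, hy]

end Pool.Agent.Lib.MP_35c2eb_co.InsLinear
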