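import Mathlib

set_option autoImplicit false

/-!
Reversible sets of incomparable pairs: a set without alternating cycles is reversed by one
linear extension; a bound on the dimension from finitely many reversible sets.
-/

namespace Pool.Agent.Lib.MP_35c2eb_co.Ins

variable {P : Type} [PartialOrder P]

/-- One step of an alternating cycle: from the pair `p` to the pair `q`. -/
def AltStep (S : P → P → Prop) (p q : P × P) : Prop :=
  S p.1 p.2 ∧ S q.1 q.2 ∧ p.1 ≤ q.2

/-- The relation `u` comes before `v`: either `u ≤ v` or the pair `(v, u)` is to be reversed. -/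
def Before (S : P → P → Prop) (u v : P) : Prop := u ≤ v ∨ S v u

lemma before_cases (S : P → P → Prop) (u v : P) (h : Relation.ReflTransGen (Before S) u v) :
    u ≤ v ∨ ∃ p q : P × P, S p.1 p.2 ∧ S q.1 q.2 ∧ u ≤ p.2 ∧
      Relation.ReflTransGen (AltStep S) p q ∧ q.1 ≤ v := by
  induction h with
  | refl => exact Or.inl le_rfl
  | @tail v w _ hvw ih =>
    rcases hvw with hvw | hvw
    · rcases ih with ih | ⟨p, q, hp, hq, h1, h2, h3⟩
      · exact Or.inl (ih.trans hvw)
      · exact Or.inr ⟨p, q, hp, hq, h1, h2, h3.trans hvw⟩
    · rcases ih with ih | ⟨p, q, hp, hq, h1, h2, h3⟩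
      · exact Or.inr ⟨(w, v), (w, v), hvw, hvw, ih, Relation.ReflTransGen.refl, le_rfl⟩
      · exact Or.inr ⟨p, (w, v), hp, hvw, h1, h2.tail ⟨hq, hvw, h3⟩, le_rfl⟩

/-- Without alternating cycles there is one linear extension which reverses all pairs. -/
theorem exists_ext [Fintype P] (S : P → P → Prop)
    (hac : ∀ p, ¬ Relation.TransGen (AltStep S) p p) :
    ∃ f : P → ℕ, Function.Injective f ∧ (∀ x y, x ≤ y → f x ≤ f y) ∧
      ∀ x y, S x y → f y < f x := by
  classical
  have hanti : ∀ u v, Relation.ReflTransGen (Before S) u v →
      Relation.ReflTransGen (Before S) v u → u = v := by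
    intro u v huv hvu
    rcases before_cases S u v huv with h | ⟨p, q, hp, hq, h1, h2, h3⟩
    · rcases before_cases S v u hvu with h' | ⟨p', q', hp', hq', h1', h2', h3'⟩
      · exact le_antisymm h h'
      · exact absurd (Relation.TransGen.tail' h2' ⟨hq', hp', (h3'.trans h).trans h1'⟩) (hac p')
    · rcases before_cases S v u hvu with h' | ⟨p', q', hp', hq', h1', h2', h3'⟩
      · exact absurd (Relation.TransGen.tail' h2 ⟨hq, hp, (h3.trans h').trans h1⟩) (hac p)
      · have h4 : Relation.TransGen (AltStep S) p p' :=
          Relation.TransGen.tail' h2 ⟨hq, hp', h3.trans h1'⟩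
        have h5 : Relation.TransGen (AltStep S) p' p :=
          Relation.TransGen.tail' h2' ⟨hq', hp, h3'.trans h1⟩
        exact absurd (h4.trans h5) (hac p)
  haveI : IsPartialOrder P (Relation.ReflTransGen (Before S)) :=
    { refl := fun _ => Relation.ReflTransGen.refl
      trans := fun _ _ _ h1 h2 => h1.trans h2
      antisymm := hanti }
  obtain ⟨s, hs, hrs⟩ := extend_partialOrder (Relation.ReflTransGen (Before S))
  have htot : ∀ u v, s u v ∨ s v u := fun u v => hs.total u v
  have htr : ∀ u v w, s u v → s v w → s u w := fun u v w => hs.trans u v w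
  have han : ∀ u v, s u v → s v u → u = v := fun u v => hs.antisymm u v
  have hre : ∀ u, s u u := fun u => (htot u u).elim id id
  have hmono : ∀ u v, s u v → (Finset.univ.filter (fun z => s z u)).card ≤
      (Finset.univ.filter (fun z => s z v)).card := by
    intro u v huv
    apply Finset.card_le_card
    intro z hz
    rw [Finset.mem_filter] at hz ⊢
    exact ⟨hz.1, htr _ _ _ hz.2 huv⟩
  have hstrict : ∀ u v, s u v → u ≠ v → (Finset.univ.filter (fun z => s z u)).card <
      (Finset.univ.filter (fun z => s z v)).card := by
    intro u v huv hne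
    apply Finset.card_lt_card
    rw [Finset.ssubset_iff_of_subset]
    · refine ⟨v, ?_, ?_⟩
      · rw [Finset.mem_filter]
        exact ⟨Finset.mem_univ _, hre v⟩
      · intro hv
        rw [Finset.mem_filter] at hv
        exact hne (han _ _ huv hv.2)
    · intro z hz
      rw [Finset.mem_filter] at hz ⊢
      exact ⟨hz.1, htr _ _ _ hz.2 huv⟩
  refine ⟨fun u => (Finset.univ.filter (fun z => s z u)).card, ?_, ?_, ?_⟩
  · intro u v huv
    by_contra hne
    rcases htot u v with h | h
    · have := hstrict u v h hne
      simp only at huv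
      omega
    · have := hstrict v u h (fun h' => hne h'.symm)
      simp only at huv
      omega
  · intro x y hxy
    exact hmono x y (hrs x y (Relation.ReflTransGen.single (Or.inl hxy)))
  · intro x y hxy
    have h1 : s y x := hrs y x (Relation.ReflTransGen.single (Or.inr hxy))
    apply hstrict y x h1
    intro h
    subst h
    exact hac (y, y) (Relation.TransGen.single ⟨hxy, hxy, le_rfl⟩)

/-- If the incomparable (ordered) pairs are divided into classes indexed by a finite type, each
without alternating cycles, then the dimension is at most the number of classes. -/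
theorem dim_le_of_classes [Fintype P] {I : Type} [Fintype I] (sig : P → P → I)
    (hac : ∀ i, ∀ p, ¬ Relation.TransGen (AltStep (fun x y : P => ¬ x ≤ y ∧ sig x y = i)) p p) :
    ∃ f : Fin (Fintype.card I) → P → ℕ, (∀ i, Function.Injective (f i)) ∧
      ∀ x y : P, x ≤ y ↔ ∀ i, f i x ≤ f i y := by
  choose f hf1 hf2 hf3 using fun i => exists_ext (fun x y : P => ¬ x ≤ y ∧ sig x y = i) (hac i)
  refine ⟨fun j => f ((Fintype.equivFin I).symm j), fun j => hf1 _, ?_⟩
  intro x y
  constructor
  · intro h j
    exact hf2 _ _ _ h
  · intro h
    by_contra hxy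
    have h1 := hf3 (sig x y) x y ⟨hxy, rfl⟩
    have h2 := h (Fintype.equivFin I (sig x y))
    simp only [Equiv.symm_apply_apply] at h2
    omega

/-- The criterion for the absence of alternating cycles which we use: there are two coordinates
`c` and `d`, the sign of the difference of each coordinate is constant on the class, and each
step of an alternating cycle keeps the coordinate `c`, and keeps the coordinate `d` or else
passes through a point which makes the next pair comparable as soon as the coordinates `c` of
its members agree. -/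
theorem no_cycle (S : P → P → Prop) (c d : P → ℕ)
    (hS : ∀ x y, S x y → ¬ x ≤ y)
    (hc : (∀ x y, S x y → c y < c x) ∨ (∀ x y, S x y → c x < c y) ∨ (∀ x y, S x y → c x = c y))
    (hd : (∀ x y, S x y → d y < d x) ∨ (∀ x y, S x y → d x < d y) ∨ (∀ x y, S x y → d x = d y))
    (hstep : ∀ x y x' y', S x y → S x' y' → x ≤ y' → c x = c y' ∧
      (d x = d y' ∨ (c x' = c y' → x' ≤ y')))
    (hid : ∀ x y x' y', S x y → S x' y' → x ≤ y' → c x = c x' → d x = d x' → x = x') :
    ∀ p, ¬ Relation.TransGen (AltStep S) p p := by
  rcases hc with hc | hc | hc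
  · have key : ∀ p q, Relation.TransGen (AltStep S) p q → c p.1 < c q.1 := by
      intro p q h
      induction h with
      | single h =>
        obtain ⟨h1, h2, h3⟩ := h
        rw [(hstep _ _ _ _ h1 h2 h3).1]
        exact hc _ _ h2
      | tail _ h ih =>
        obtain ⟨h1, h2, h3⟩ := h
        refine ih.trans ?_
        rw [(hstep _ _ _ _ h1 h2 h3).1]
        exact hc _ _ h2
    intro p hp
    exact lt_irrefl _ (key p p hp)
  · have key : ∀ p q, Relation.TransGen (AltStep S) p q → c q.1 < c p.1 := by
      intro p q h
      induction h with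
      | single h =>
        obtain ⟨h1, h2, h3⟩ := h
        rw [(hstep _ _ _ _ h1 h2 h3).1]
        exact hc _ _ h2
      | tail _ h ih =>
        obtain ⟨h1, h2, h3⟩ := h
        refine lt_trans ?_ ih
        rw [(hstep _ _ _ _ h1 h2 h3).1]
        exact hc _ _ h2
    intro p hp
    exact lt_irrefl _ (key p p hp)
  · have hstep' : ∀ x y x' y', S x y → S x' y' → x ≤ y' → d x = d y' := by
      intro x y x' y' h1 h2 h3
      rcases (hstep _ _ _ _ h1 h2 h3).2 with h | h
      · exact h
      · exact absurd (h (hc _ _ h2)) (hS _ _ h2)
    rcases hd with hd | hd | hd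
    · have key : ∀ p q, Relation.TransGen (AltStep S) p q → d p.1 < d q.1 := by
        intro p q h
        induction h with
        | single h =>
          obtain ⟨h1, h2, h3⟩ := h
          rw [hstep' _ _ _ _ h1 h2 h3]
          exact hd _ _ h2
        | tail _ h ih =>
          obtain ⟨h1, h2, h3⟩ := h
          refine ih.trans ?_
          rw [hstep' _ _ _ _ h1 h2 h3]
          exact hd _ _ h2
      intro p hp
      exact lt_irrefl _ (key p p hp)
    · have key : ∀ p q, Relation.TransGen (AltStep S) p q → d q.1 < d p.1 := by
        intro p q h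
        induction h with
        | single h =>
          obtain ⟨h1, h2, h3⟩ := h
          rw [hstep' _ _ _ _ h1 h2 h3]
          exact hd _ _ h2
        | tail _ h ih =>
          obtain ⟨h1, h2, h3⟩ := h
          refine lt_trans ?_ ih
          rw [hstep' _ _ _ _ h1 h2 h3]
          exact hd _ _ h2
      intro p hp
      exact lt_irrefl _ (key p p hp)
    · have hno : ∀ p q, ¬ AltStep S p q := by
        intro p q h
        obtain ⟨h1, h2, h3⟩ := h
        have e1 := (hstep _ _ _ _ h1 h2 h3).1
        have e2 := hstep' _ _ _ _ h1 h2 h3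
        have e3 := hc _ _ h2
        have e4 := hd _ _ h2
        have e5 := hid _ _ _ _ h1 h2 h3 (e1.trans e3.symm) (e2.trans e4.symm)
        rw [e5] at h3
        exact hS _ _ h2 h3
      intro p hp
      rcases Relation.TransGen.head'_iff.1 hp with ⟨q, hq, -⟩
      exact hno _ _ hq

end Pool.Agent.Lib.MP_35c2eb_co.Ins
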