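import Pool.Agent.Lib.MP_35c2eb_co.Ins.Struct

set_option autoImplicit false

/-!
The graph obtained from the complete bipartite graph with both classes countably infinite by
subdividing each edge `2 r` times, and the class of its subgraphs.
-/

namespace Pool.Agent.Lib.MP_35c2eb_co.Ins

/-- The point at position `i` of the leg from the vertex `a` of the first class to the vertex
`b` of the second class. -/
def node (r a b i : ℕ) : ℕ × ℕ × ℕ :=
  if i = 0 then (a, 0, 0) else if i = 2 * r + 1 then (0, b, 2 * r + 1) else (a, b, i)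

lemma node_pos (r a b i : ℕ) : (node r a b i).2.2 = i := by
  unfold node
  split_ifs with h1 h2
  · exact h1.symm
  · exact h2.symm
  · rfl

lemma node_fst (r a b i : ℕ) (h : i ≠ 2 * r + 1) : (node r a b i).1 = a := by
  unfold node
  rw [if_neg h]
  split_ifs <;> rfl

lemma node_snd (r a b i : ℕ) (h : i ≠ 0) : (node r a b i).2.1 = b := by
  unfold node
  rw [if_neg h]
  split_ifs <;> rfl

/-- Adjacency in the subdivided complete bipartite graph. -/
def Sub (r : ℕ) : SimpleGraph (ℕ × ℕ × ℕ) :=
  SimpleGraph.fromRel (fun u v => ∃ a b i, i ≤ 2 * r ∧ u = node r a b i ∧ v = node r a b (i + 1))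

/-- The points of the subdivided complete bipartite graph. -/
def IsNode (r : ℕ) (u : ℕ × ℕ × ℕ) : Prop := ∃ a b i, i ≤ 2 * r + 1 ∧ u = node r a b i

/-- The class of the subgraphs of the subdivided complete bipartite graph. -/
def SubClass (r : ℕ) (V : Type) (G : SimpleGraph V) : Prop :=
  ∃ ι : V → ℕ × ℕ × ℕ, Function.Injective ι ∧ (∀ v, IsNode r (ι v)) ∧
    ∀ u v, G.Adj u v → (Sub r).Adj (ι u) (ι v)

lemma sub_adj (r a b i : ℕ) (hi : i ≤ 2 * r) : (Sub r).Adj (node r a b i) (node r a b (i + 1)) := by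
  rw [Sub, SimpleGraph.fromRel_adj]
  refine ⟨?_, Or.inl ⟨a, b, i, hi, rfl, rfl⟩⟩
  intro h
  have := congrArg (fun u => u.2.2) h
  simp only [node_pos] at this
  omega

lemma sub_cases (r : ℕ) (u v : ℕ × ℕ × ℕ) (h : (Sub r).Adj u v) :
    ∃ a b i, i ≤ 2 * r ∧ ((u = node r a b i ∧ v = node r a b (i + 1)) ∨
      (v = node r a b i ∧ u = node r a b (i + 1))) := by
  rw [Sub, SimpleGraph.fromRel_adj] at h
  rcases h.2 with ⟨a, b, i, hi, h1, h2⟩ | ⟨a, b, i, hi, h1, h2⟩
  · exact ⟨a, b, i, hi, Or.inl ⟨h1, h2⟩⟩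
  · exact ⟨a, b, i, hi, Or.inr ⟨h1, h2⟩⟩

/-- Dimension of the posets of height at most `2 r + 1` whose cover graph is a subgraph of the
subdivided complete bipartite graph. -/
theorem dim_of_sub (r : ℕ) (P : Type) [Fintype P] [PartialOrder P]
    (hht : ∀ s : Finset P, IsChain (· ≤ ·) (s : Set P) → s.card ≤ 2 * r + 1)
    (ι : P → ℕ × ℕ × ℕ) (hι : Function.Injective ι) (hnode : ∀ x, IsNode r (ι x))
    (hcov : ∀ x y : P, x ⋖ y → (Sub r).Adj (ι x) (ι y)) :
    ∃ f : Fin (256 * (r + 1) ^ 2) → P → ℕ, (∀ i, Function.Injective (f i)) ∧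
      ∀ x y : P, x ≤ y ↔ ∀ i, f i x ≤ f i y := by
  have hadj : ∀ x y : P, (x ⋖ y ∨ y ⋖ x) → (Sub r).Adj (ι x) (ι y) := by
    intro x y h
    rcases h with h | h
    · exact hcov x y h
    · exact (hcov y x h).symm
  suffices key : ∃ D : ℕ, D = 256 * (r + 1) ^ 2 ∧ ∃ f : Fin D → P → ℕ,
      (∀ i, Function.Injective (f i)) ∧ ∀ x y : P, x ≤ y ↔ ∀ i, f i x ≤ f i y by
    obtain ⟨D, hD, hf⟩ := key
    subst hD
    exact hf
  refine dim_of_coords r (fun x => (ι x).1) (fun x => (ι x).2.1)
    (fun x => (ι x).2.2) ?_ ?_ hht ?_ ?_ ?_ ?_ ?_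
  · intro x
    obtain ⟨a, b, i, hi, h⟩ := hnode x
    simp only [h, node_pos]
    exact hi
  · intro x y h1 h2 h3
    apply hι
    exact Prod.ext h1 (Prod.ext h2 h3)
  · intro x y hxy hlt
    obtain ⟨a, b, i, hi, ⟨h1, h2⟩ | ⟨h1, h2⟩⟩ := sub_cases r _ _ (hadj x y hxy)
    · simp only [h2, node_pos] at hlt
      simp only [h1, h2, node_pos]
      rw [node_fst r a b i (by omega), node_fst r a b (i + 1) (by omega)]
      exact ⟨rfl, by omega⟩
    · simp only [h1, node_pos] at hlt
      simp only [h1, h2, node_pos]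
      rw [node_fst r a b i (by omega), node_fst r a b (i + 1) (by omega)]
      exact ⟨rfl, le_rfl⟩
  · intro x y hxy hlt
    obtain ⟨a, b, i, hi, ⟨h1, h2⟩ | ⟨h1, h2⟩⟩ := sub_cases r _ _ (hadj x y hxy)
    · simp only [h2, node_pos] at hlt
      simp only [h1, h2, node_pos]
      rw [node_snd r a b i (by omega), node_snd r a b (i + 1) (by omega)]
      exact ⟨rfl, le_rfl⟩
    · simp only [h1, node_pos] at hlt
      simp only [h1, h2, node_pos]
      rw [node_snd r a b i (by omega), node_snd r a b (i + 1) (by omega)]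
      exact ⟨rfl, by omega⟩
  · intro x y hxy hx0 hy0 hx1 hy1
    obtain ⟨a, b, i, hi, ⟨h1, h2⟩ | ⟨h1, h2⟩⟩ := sub_cases r _ _ (hcov x y hxy)
    · simp only [h1, h2, node_pos] at hx0 hy0 hx1 hy1 ⊢
      rw [node_fst r a b i (by omega), node_fst r a b (i + 1) (by omega),
        node_snd r a b i (by omega), node_snd r a b (i + 1) (by omega)]
      exact ⟨rfl, rfl⟩
    · simp only [h1, h2, node_pos] at hx0 hy0 hx1 hy1 ⊢
      rw [node_fst r a b i (by omega), node_fst r a b (i + 1) (by omega),
        node_snd r a b i (by omega), node_snd r a b (i + 1) (by omega)]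
      exact ⟨rfl, rfl⟩
  · intro x y hx hy hxy
    apply hι
    obtain ⟨a, b, i, hi, h⟩ := hnode x
    obtain ⟨a', b', i', hi', h'⟩ := hnode y
    simp only [h, node_pos] at hx
    simp only [h', node_pos] at hy
    subst hx
    subst hy
    simp only [h, h', node] at hxy ⊢
    simp only [if_true] at hxy ⊢
    rw [hxy]
  · intro x y hx hy hxy
    apply hι
    obtain ⟨a, b, i, hi, h⟩ := hnode x
    obtain ⟨a', b', i', hi', h'⟩ := hnode y
    simp only [h, node_pos] at hx
    simp only [h', node_pos] at hy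
    rw [hx] at h
    rw [hy] at h'
    have e1 : node r a b (2 * r + 1) = (0, b, 2 * r + 1) := by
      simp [node]
    have e2 : node r a' b' (2 * r + 1) = (0, b', 2 * r + 1) := by
      simp [node]
    simp only [h, h', e1, e2] at hxy ⊢
    rw [hxy]

/-- The finite part of the subdivided complete bipartite graph with legs between the first `n`
vertices of each class. -/
def part (r n : ℕ) : Finset (ℕ × ℕ × ℕ) :=
  ((Finset.range n) ×ˢ ((Finset.range n) ×ˢ (Finset.range (2 * r + 2)))).image
    (fun t => node r t.1 t.2.1 t.2.2)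

lemma mem_part (r n a b i : ℕ) (ha : a < n) (hb : b < n) (hi : i ≤ 2 * r + 1) :
    node r a b i ∈ part r n := by
  rw [part, Finset.mem_image]
  refine ⟨(a, b, i), ?_, rfl⟩
  rw [Finset.mem_product, Finset.mem_product, Finset.mem_range, Finset.mem_range,
    Finset.mem_range]
  exact ⟨ha, hb, Nat.lt_succ_of_le hi⟩

/-- The finite subdivided complete bipartite graph. -/
def PartGraph (r n : ℕ) : SimpleGraph (part r n) := (Sub r).comap Subtype.val

lemma partGraph_mem (r n : ℕ) : SubClass r (part r n) (PartGraph r n) := by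
  refine ⟨Subtype.val, Subtype.val_injective, ?_, fun u v h => h⟩
  intro v
  obtain ⟨t, ht, htv⟩ := Finset.mem_image.1 v.2
  rw [Finset.mem_product, Finset.mem_product, Finset.mem_range, Finset.mem_range,
    Finset.mem_range] at ht
  exact ⟨t.1, t.2.1, t.2.2, by omega, htv.symm⟩

/-- The branch sets. -/
def branch (r n : ℕ) : Fin n ⊕ Fin n → Set (part r n)
  | Sum.inl a => {u | ∃ b : Fin n, ∃ i, i ≤ r ∧ (u : ℕ × ℕ × ℕ) = node r a b i}
  | Sum.inr b => {u | ∃ a : Fin n, ∃ i, r < i ∧ i ≤ 2 * r + 1 ∧ (u : ℕ × ℕ × ℕ) = node r a b i}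

/-- The complete bipartite graph is a shallow minor of the subdivision. -/
theorem exists_model (r n : ℕ) (hn : 0 < n) :
    ∃ B : Fin n ⊕ Fin n → Set (part r n),
      (∀ w w', w ≠ w' → Disjoint (B w) (B w')) ∧
      (∀ w, ∃ v ∈ B w, ∀ u ∈ B w, ∃ p : (PartGraph r n).Walk v u,
        p.length ≤ r ∧ ∀ x ∈ p.support, x ∈ B w) ∧
      (∀ w w', (completeBipartiteGraph (Fin n) (Fin n)).Adj w w' →
        ∃ u ∈ B w, ∃ u' ∈ B w', (PartGraph r n).Adj u u') := by
  classical
  refine ⟨branch r n, ?_, ?_, ?_⟩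
  · intro w w' hne
    rw [Set.disjoint_left]
    intro u hu hu'
    rcases w with a | b
    · rcases w' with a' | b'
      · obtain ⟨b1, i1, hi1, h1⟩ := hu
        obtain ⟨b2, i2, hi2, h2⟩ := hu'
        have e1 : (u : ℕ × ℕ × ℕ).1 = a := by rw [h1, node_fst r a b1 i1 (by omega)]
        have e2 : (u : ℕ × ℕ × ℕ).1 = a' := by rw [h2, node_fst r a' b2 i2 (by omega)]
        exact hne (congrArg Sum.inl (Fin.ext (e1.symm.trans e2)))
      · obtain ⟨b1, i1, hi1, h1⟩ := hu
        obtain ⟨a2, i2, hi2, hi2', h2⟩ := hu'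
        have e1 : (u : ℕ × ℕ × ℕ).2.2 = i1 := by rw [h1, node_pos]
        have e2 : (u : ℕ × ℕ × ℕ).2.2 = i2 := by rw [h2, node_pos]
        omega
    · rcases w' with a' | b'
      · obtain ⟨b1, i1, hi1, h1⟩ := hu'
        obtain ⟨a2, i2, hi2, hi2', h2⟩ := hu
        have e1 : (u : ℕ × ℕ × ℕ).2.2 = i1 := by rw [h1, node_pos]
        have e2 : (u : ℕ × ℕ × ℕ).2.2 = i2 := by rw [h2, node_pos]
        omega
      · obtain ⟨a1, i1, hi1, hi1', h1⟩ := hu
        obtain ⟨a2, i2, hi2, hi2', h2⟩ := hu'
        have e1 : (u : ℕ × ℕ × ℕ).2.1 = b := by rw [h1, node_snd r a1 b i1 (by omega)]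
        have e2 : (u : ℕ × ℕ × ℕ).2.1 = b' := by rw [h2, node_snd r a2 b' i2 (by omega)]
        exact hne (congrArg Sum.inr (Fin.ext (e1.symm.trans e2)))
  · intro w
    rcases w with a | b
    · refine ⟨⟨node r a 0 0, mem_part r n a 0 0 a.2 hn (by omega)⟩,
        ⟨⟨0, hn⟩, 0, by omega, rfl⟩, ?_⟩
      have key : ∀ (b : Fin n) (i : ℕ) (hi : i ≤ r),
          ∃ p : (PartGraph r n).Walk ⟨node r a 0 0, mem_part r n a 0 0 a.2 hn (by omega)⟩
            ⟨node r a b i, mem_part r n a b i a.2 b.2 (by omega)⟩,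
          p.length ≤ i ∧ ∀ x ∈ p.support, x ∈ branch r n (Sum.inl a) := by
        intro b i
        induction i with
        | zero =>
          intro hi
          have e : (⟨node r a b 0, mem_part r n a b 0 a.2 b.2 (by omega)⟩ : part r n) =
            ⟨node r a 0 0, mem_part r n a 0 0 a.2 hn (by omega)⟩ := by
            apply Subtype.ext
            simp [node]
          rw [e]
          refine ⟨SimpleGraph.Walk.nil, by simp, ?_⟩
          intro x hx
          rw [SimpleGraph.Walk.support_nil, List.mem_singleton] at hx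
          subst hx
          exact ⟨⟨0, hn⟩, 0, by omega, rfl⟩
        | succ i ih =>
          intro hi
          obtain ⟨p, hp, hps⟩ := ih (by omega)
          have hadj : (PartGraph r n).Adj ⟨node r a b i, mem_part r n a b i a.2 b.2 (by omega)⟩
            ⟨node r a b (i + 1), mem_part r n a b (i + 1) a.2 b.2 (by omega)⟩ :=
            sub_adj r a b i (by omega)
          refine ⟨p.concat hadj, ?_, ?_⟩
          · rw [SimpleGraph.Walk.length_concat]
            omega
          · intro x hx
            rw [SimpleGraph.Walk.support_concat, List.mem_append,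
              List.mem_singleton] at hx
            rcases hx with hx | rfl
            · exact hps x hx
            · exact ⟨b, i + 1, hi, rfl⟩
      intro u hu
      obtain ⟨b, i, hi, h⟩ := hu
      have hu' : u = ⟨node r a b i, mem_part r n a b i a.2 b.2 (by omega)⟩ := Subtype.ext h
      subst hu'
      obtain ⟨p, hp, hps⟩ := key b i hi
      exact ⟨p, hp.trans hi, hps⟩
    · refine ⟨⟨node r 0 b (2 * r + 1), mem_part r n 0 b (2 * r + 1) hn b.2 le_rfl⟩,
        ⟨⟨0, hn⟩, 2 * r + 1, by omega, le_rfl, rfl⟩, ?_⟩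
      have key : ∀ (a : Fin n) (j : ℕ) (hj : j ≤ r),
          ∃ p : (PartGraph r n).Walk
            ⟨node r 0 b (2 * r + 1), mem_part r n 0 b (2 * r + 1) hn b.2 le_rfl⟩
            ⟨node r a b (2 * r + 1 - j), mem_part r n a b (2 * r + 1 - j) a.2 b.2 (by omega)⟩,
          p.length ≤ j ∧ ∀ x ∈ p.support, x ∈ branch r n (Sum.inr b) := by
        intro a j
        induction j with
        | zero =>
          intro hj
          have e : (⟨node r a b (2 * r + 1 - 0),
              mem_part r n a b (2 * r + 1 - 0) a.2 b.2 (by omega)⟩ : part r n) =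
            ⟨node r 0 b (2 * r + 1), mem_part r n 0 b (2 * r + 1) hn b.2 le_rfl⟩ := by
            apply Subtype.ext
            simp [node]
          rw [e]
          refine ⟨SimpleGraph.Walk.nil, by simp, ?_⟩
          intro x hx
          rw [SimpleGraph.Walk.support_nil, List.mem_singleton] at hx
          subst hx
          exact ⟨⟨0, hn⟩, 2 * r + 1, by omega, le_rfl, rfl⟩
        | succ j ih =>
          intro hj
          obtain ⟨p, hp, hps⟩ := ih (by omega)
          have e : 2 * r + 1 - j = (2 * r + 1 - (j + 1)) + 1 := by omega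
          have hadj : (PartGraph r n).Adj
            ⟨node r a b (2 * r + 1 - j), mem_part r n a b (2 * r + 1 - j) a.2 b.2 (by omega)⟩
            ⟨node r a b (2 * r + 1 - (j + 1)),
              mem_part r n a b (2 * r + 1 - (j + 1)) a.2 b.2 (by omega)⟩ := by
            have h := (sub_adj r a b (2 * r + 1 - (j + 1)) (by omega)).symm
            rw [← e] at h
            exact h
          refine ⟨p.concat hadj, ?_, ?_⟩
          · rw [SimpleGraph.Walk.length_concat]
            omega
          · intro x hx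
            rw [SimpleGraph.Walk.support_concat, List.mem_append,
              List.mem_singleton] at hx
            rcases hx with hx | rfl
            · exact hps x hx
            · exact ⟨a, 2 * r + 1 - (j + 1), by omega, by omega, rfl⟩
      intro u hu
      obtain ⟨a, i, hi, hi', h⟩ := hu
      obtain ⟨j, hj, hij⟩ : ∃ j, j ≤ r ∧ i = 2 * r + 1 - j := ⟨2 * r + 1 - i, by omega, by omega⟩
      subst hij
      have hu' : u = ⟨node r a b (2 * r + 1 - j),
        mem_part r n a b (2 * r + 1 - j) a.2 b.2 (by omega)⟩ := Subtype.ext h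
      subst hu'
      obtain ⟨p, hp, hps⟩ := key a j hj
      exact ⟨p, hp.trans hj, hps⟩
  · intro w w' hww
    have hedge : ∀ (a b : Fin n), ∃ u ∈ branch r n (Sum.inl a), ∃ u' ∈ branch r n (Sum.inr b),
        (PartGraph r n).Adj u u' := by
      intro a b
      exact ⟨⟨node r a b r, mem_part r n a b r a.2 b.2 (by omega)⟩, ⟨b, r, le_rfl, rfl⟩,
        ⟨node r a b (r + 1), mem_part r n a b (r + 1) a.2 b.2 (by omega)⟩,
        ⟨a, r + 1, by omega, by omega, rfl⟩, sub_adj r a b r (by omega)⟩
    rcases w with a | b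
    · rcases w' with a' | b'
      · simp at hww
      · exact hedge a b'
    · rcases w' with a' | b'
      · obtain ⟨u, hu, u', hu', h⟩ := hedge a' b
        exact ⟨u', hu', u, hu, h.symm⟩
      · simp at hww

/-- The complete bipartite graph with classes of size `n` has at least `n ^ 2` edges. -/
lemma card_edges (n : ℕ) :
    n * n ≤ Nat.card (completeBipartiteGraph (Fin n) (Fin n)).edgeSet := by
  classical
  have h : Nat.card (Fin n × Fin n) ≤
      Nat.card (completeBipartiteGraph (Fin n) (Fin n)).edgeSet := by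
    apply Nat.card_le_card_of_injective
      (fun ab : Fin n × Fin n => (⟨s(Sum.inl ab.1, Sum.inr ab.2), by simp⟩ :
        (completeBipartiteGraph (Fin n) (Fin n)).edgeSet))
    intro x y hxy
    have h1 : s(Sum.inl x.1, Sum.inr x.2) = s(Sum.inl y.1, (Sum.inr y.2 : Fin n ⊕ Fin n)) :=
      congrArg Subtype.val hxy
    rw [Sym2.eq_iff] at h1
    rcases h1 with ⟨h2, h3⟩ | ⟨h2, h3⟩
    · exact Prod.ext (Sum.inl.inj h2) (Sum.inr.inj h3)
    · exact absurd h2 (by simp)
  rw [Nat.card_eq_fintype_card, Fintype.card_prod, Fintype.card_fin] at h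
  exact h

end Pool.Agent.Lib.MP_35c2eb_co.Ins
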