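import Pool.Agent.Lib.MP_35c2eb_co.Ins.Reverse

set_option autoImplicit false

/-!
Posets of height at most `2 r + 1` whose cover graph is a subgraph of the graph obtained from a
complete bipartite graph by subdividing each edge `2 r` times. Such a poset carries three
coordinates: `c` (the end of the leg in the first class), `d` (the end in the second class) and
`p` (the position in the leg, from `0` to `2 r + 1`).
-/

namespace Pool.Agent.Lib.MP_35c2eb_co.Ins

variable {P : Type} [PartialOrder P]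

/-- Below a point of position `0`. -/
lemma below_branch [Fintype P] (r : ℕ) (c p : P → ℕ)
    (hht : ∀ s : Finset P, IsChain (· ≤ ·) (s : Set P) → s.card ≤ 2 * r + 1)
    (hadj : ∀ x y : P, (x ⋖ y ∨ y ⋖ x) → p y < 2 * r → c x = c y ∧ p x ≤ p y + 1)
    (z : P) (hz : p z = 0) :
    ∀ x, x ≤ z → c x = c z ∧ ∃ s : Finset P, IsChain (· ≤ ·) (s : Set P) ∧
      (∀ u ∈ s, x ≤ u ∧ u ≤ z) ∧ p x + 1 ≤ s.card := by
  classical
  intro x
  induction x using WellFoundedGT.induction with
  | ind x ih =>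
    intro hxz
    rcases hxz.eq_or_lt with rfl | hlt
    · refine ⟨rfl, {x}, ?_, ?_, ?_⟩
      · simp
      · intro u hu
        rw [Finset.mem_singleton] at hu
        subst hu
        exact ⟨le_rfl, le_rfl⟩
      · simp [hz]
    · obtain ⟨y, hxy, hyz⟩ := exists_covBy_le_of_lt hlt
      obtain ⟨hcy, s, hs, hsz, hcard⟩ := ih y hxy.lt hyz
      have hxs : x ∉ s := fun h => (lt_irrefl _ (lt_of_lt_of_le hxy.lt (hsz x h).1))
      have hch : IsChain (· ≤ ·) ((insert x s : Finset P) : Set P) := by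
        rw [Finset.coe_insert]
        apply hs.insert
        intro b hb _
        exact Or.inl (hxy.le.trans (hsz b hb).1)
      have hle := hht _ hch
      rw [Finset.card_insert_of_notMem hxs] at hle
      obtain ⟨h1, h2⟩ := hadj x y (Or.inl hxy) (by omega)
      refine ⟨h1.trans hcy, insert x s, hch, ?_, ?_⟩
      · intro u hu
        rw [Finset.mem_insert] at hu
        rcases hu with rfl | hu
        · exact ⟨le_rfl, hxz⟩
        · exact ⟨hxy.le.trans (hsz u hu).1, (hsz u hu).2⟩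
      · rw [Finset.card_insert_of_notMem hxs]
        omega

/-- Above a point of position `0`. -/
lemma above_branch [Fintype P] (r : ℕ) (c p : P → ℕ)
    (hht : ∀ s : Finset P, IsChain (· ≤ ·) (s : Set P) → s.card ≤ 2 * r + 1)
    (hadj : ∀ x y : P, (x ⋖ y ∨ y ⋖ x) → p y < 2 * r → c x = c y ∧ p x ≤ p y + 1)
    (z : P) (hz : p z = 0) :
    ∀ x, z ≤ x → c x = c z ∧ ∃ s : Finset P, IsChain (· ≤ ·) (s : Set P) ∧
      (∀ u ∈ s, z ≤ u ∧ u ≤ x) ∧ p x + 1 ≤ s.card := by
  classical
  intro x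
  induction x using WellFoundedLT.induction with
  | ind x ih =>
    intro hxz
    rcases hxz.eq_or_lt with rfl | hlt
    · refine ⟨rfl, {z}, ?_, ?_, ?_⟩
      · simp
      · intro u hu
        rw [Finset.mem_singleton] at hu
        subst hu
        exact ⟨le_rfl, le_rfl⟩
      · simp [hz]
    · obtain ⟨y, hzy, hyx⟩ := exists_le_covBy_of_lt hlt
      obtain ⟨hcy, s, hs, hsz, hcard⟩ := ih y hyx.lt hzy
      have hxs : x ∉ s := fun h => (lt_irrefl _ (lt_of_le_of_lt (hsz x h).2 hyx.lt))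
      have hch : IsChain (· ≤ ·) ((insert x s : Finset P) : Set P) := by
        rw [Finset.coe_insert]
        apply hs.insert
        intro b hb _
        exact Or.inr ((hsz b hb).2.trans hyx.le)
      have hle := hht _ hch
      rw [Finset.card_insert_of_notMem hxs] at hle
      obtain ⟨h1, h2⟩ := hadj x y (Or.inr hyx) (by omega)
      refine ⟨h1.trans hcy, insert x s, hch, ?_, ?_⟩
      · intro u hu
        rw [Finset.mem_insert] at hu
        rcases hu with rfl | hu
        · exact ⟨hxz, le_rfl⟩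
        · exact ⟨(hsz u hu).1, (hsz u hu).2.trans hyx.le⟩
      · rw [Finset.card_insert_of_notMem hxs]
        omega

/-- Two points on either side of a point of position `0` keep the coordinate, and their
positions add up to at most `2 r`. -/
lemma through_branch [Fintype P] (r : ℕ) (c p : P → ℕ)
    (hht : ∀ s : Finset P, IsChain (· ≤ ·) (s : Set P) → s.card ≤ 2 * r + 1)
    (hadj : ∀ x y : P, (x ⋖ y ∨ y ⋖ x) → p y < 2 * r → c x = c y ∧ p x ≤ p y + 1)
    (x z y : P) (hz : p z = 0) (hxz : x ≤ z) (hzy : z ≤ y) :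
    c x = c z ∧ c y = c z ∧ p x + p y ≤ 2 * r := by
  classical
  obtain ⟨h1, s, hs, hsz, hcard⟩ := below_branch r c p hht hadj z hz x hxz
  obtain ⟨h2, t, ht, htz, hcard'⟩ := above_branch r c p hht hadj z hz y hzy
  refine ⟨h1, h2, ?_⟩
  have hch : IsChain (· ≤ ·) ((s ∪ t : Finset P) : Set P) := by
    intro u hu v hv huv
    rw [Finset.mem_coe, Finset.mem_union] at hu hv
    rcases hu with hu | hu
    · rcases hv with hv | hv
      · exact hs hu hv huv
      · exact Or.inl ((hsz u hu).2.trans (htz v hv).1)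
    · rcases hv with hv | hv
      · exact Or.inr ((hsz v hv).2.trans (htz u hu).1)
      · exact ht hu hv huv
  have hle := hht _ hch
  have hint : (s ∩ t).card ≤ 1 := by
    rw [Finset.card_le_one]
    intro u hu v hv
    rw [Finset.mem_inter] at hu hv
    have e1 : u = z := le_antisymm (hsz u hu.1).2 (htz u hu.2).1
    have e2 : v = z := le_antisymm (hsz v hv.1).2 (htz v hv.2).1
    rw [e1, e2]
  have hun := Finset.card_union_add_card_inter s t
  omega

/-- The dimension bound from the coordinates. -/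
theorem dim_of_coords [Fintype P] (r : ℕ) (c d p : P → ℕ)
    (hp : ∀ x, p x ≤ 2 * r + 1)
    (hinj : ∀ x y, c x = c y → d x = d y → p x = p y → x = y)
    (hht : ∀ s : Finset P, IsChain (· ≤ ·) (s : Set P) → s.card ≤ 2 * r + 1)
    (hc : ∀ x y : P, (x ⋖ y ∨ y ⋖ x) → p y < 2 * r → c x = c y ∧ p x ≤ p y + 1)
    (hd : ∀ x y : P, (x ⋖ y ∨ y ⋖ x) → 1 < p y → d x = d y ∧ p y ≤ p x + 1)
    (hcd : ∀ x y : P, x ⋖ y → p x ≠ 0 → p y ≠ 0 → p x ≠ 2 * r + 1 → p y ≠ 2 * r + 1 →
      c x = c y ∧ d x = d y)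
    (hc0 : ∀ x y : P, p x = 0 → p y = 0 → c x = c y → x = y)
    (hd0 : ∀ x y : P, p x = 2 * r + 1 → p y = 2 * r + 1 → d x = d y → x = y) :
    ∃ D : ℕ, D = 256 * (r + 1) ^ 2 ∧ ∃ f : Fin D → P → ℕ, (∀ i, Function.Injective (f i)) ∧
      ∀ x y : P, x ≤ y ↔ ∀ i, f i x ≤ f i y := by
  classical
  -- the three kinds of comparabilities
  have htri : ∀ x y : P, x ≤ y → (∃ z, p z = 0 ∧ x ≤ z ∧ z ≤ y) ∨
      (∃ z, p z = 2 * r + 1 ∧ x ≤ z ∧ z ≤ y) ∨ (c x = c y ∧ d x = d y) := by
    intro x y hxy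
    by_cases h1 : ∃ z, p z = 0 ∧ x ≤ z ∧ z ≤ y
    · exact Or.inl h1
    by_cases h2 : ∃ z, p z = 2 * r + 1 ∧ x ≤ z ∧ z ≤ y
    · exact Or.inr (Or.inl h2)
    refine Or.inr (Or.inr ?_)
    have key : ∀ w, x ≤ w → w ≤ y → c x = c w ∧ d x = d w := by
      intro w
      induction w using WellFoundedLT.induction with
      | ind w ih =>
        intro hxw hwy
        rcases hxw.eq_or_lt with rfl | hlt
        · exact ⟨rfl, rfl⟩
        · obtain ⟨v, hxv, hvw⟩ := exists_le_covBy_of_lt hlt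
          obtain ⟨e1, e2⟩ := ih v hvw.lt hxv (hvw.le.trans hwy)
          obtain ⟨e3, e4⟩ := hcd v w hvw
            (fun h => h1 ⟨v, h, hxv, hvw.le.trans hwy⟩)
            (fun h => h1 ⟨w, h, hxw, hwy⟩)
            (fun h => h2 ⟨v, h, hxv, hvw.le.trans hwy⟩)
            (fun h => h2 ⟨w, h, hxw, hwy⟩)
          exact ⟨e1.trans e3, e2.trans e4⟩
    exact key y hxy le_rfl
  have hadj' : ∀ x y : P, (x ⋖ y ∨ y ⋖ x) → (fun u => 2 * r + 1 - p u) y < 2 * r →
      d x = d y ∧ (fun u => 2 * r + 1 - p u) x ≤ (fun u => 2 * r + 1 - p u) y + 1 := by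
    intro x y hxy hlt
    simp only at hlt ⊢
    have := hp y
    obtain ⟨h1, h2⟩ := hd x y hxy (by omega)
    exact ⟨h1, by omega⟩
  let FA : P → Prop := fun x => ∃ z, p z = 0 ∧ c x = c z ∧ x ≤ z
  let FB : P → Prop := fun x => ∃ z, p z = 2 * r + 1 ∧ d x = d z ∧ x ≤ z
  let sig : P → P → Fin (2 * r + 2) × Fin (2 * r + 2) × (Prop × Prop) × (Prop × Prop) ×
      (Prop × Prop) := fun x y =>
    (⟨p x, by have := hp x; omega⟩, ⟨p y, by have := hp y; omega⟩, (FA x, FB x),
      (c y < c x, c x < c y), (d y < d x, d x < d y))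
  have hac : ∀ i, ∀ q, ¬ Relation.TransGen (AltStep (fun x y : P => ¬ x ≤ y ∧ sig x y = i)) q q := by
    rintro ⟨i1, i2, ⟨FAi, FBi⟩, ⟨c1, c2⟩, ⟨d1, d2⟩⟩
    obtain ⟨S, hS⟩ : ∃ S : P → P → Prop, S = fun x y : P => ¬ x ≤ y ∧ sig x y =
      (i1, i2, (FAi, FBi), (c1, c2), (d1, d2)) := ⟨_, rfl⟩
    rw [← hS]
    have hsig : ∀ x y, S x y → (¬ x ≤ y) ∧ p x = i1 ∧ p y = i2 ∧ (FA x = FAi) ∧ (FB x = FBi) ∧
        ((c y < c x) = c1) ∧ ((c x < c y) = c2) ∧ ((d y < d x) = d1) ∧ ((d x < d y) = d2) := by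
      intro x y hxy
      rw [hS] at hxy
      obtain ⟨h1, h2⟩ := hxy
      simp only [sig, Prod.mk.injEq] at h2
      obtain ⟨e1, e2, ⟨e3, e4⟩, ⟨e5, e6⟩, ⟨e7, e8⟩⟩ := h2
      exact ⟨h1, by rw [← e1], by rw [← e2], e3, e4, e5, e6, e7, e8⟩
    have hcs : (∀ x y, S x y → c y < c x) ∨ (∀ x y, S x y → c x < c y) ∨
        (∀ x y, S x y → c x = c y) := by
      by_cases hc1 : c1
      · left
        intro x y hxy
        obtain ⟨-, -, -, -, -, h, -, -, -⟩ := hsig x y hxy
        exact h ▸ hc1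
      · by_cases hc2 : c2
        · right; left
          intro x y hxy
          obtain ⟨-, -, -, -, -, -, h, -, -⟩ := hsig x y hxy
          exact h ▸ hc2
        · right; right
          intro x y hxy
          obtain ⟨-, -, -, -, -, h, h', -, -⟩ := hsig x y hxy
          rw [← h] at hc1
          rw [← h'] at hc2
          omega
    have hds : (∀ x y, S x y → d y < d x) ∨ (∀ x y, S x y → d x < d y) ∨
        (∀ x y, S x y → d x = d y) := by
      by_cases hd1 : d1
      · left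
        intro x y hxy
        obtain ⟨-, -, -, -, -, -, -, h, -⟩ := hsig x y hxy
        exact h ▸ hd1
      · by_cases hd2 : d2
        · right; left
          intro x y hxy
          obtain ⟨-, -, -, -, -, -, -, -, h⟩ := hsig x y hxy
          exact h ▸ hd2
        · right; right
          intro x y hxy
          obtain ⟨-, -, -, -, -, -, -, h, h'⟩ := hsig x y hxy
          rw [← h] at hd1
          rw [← h'] at hd2
          omega
    have hidc : ∀ x y x' y', S x y → S x' y' → x ≤ y' → c x = c x' → d x = d x' → x = x' := by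
      intro x y x' y' h1 h2 _ h3 h4
      apply hinj x x' h3 h4
      rw [(hsig x y h1).2.1, (hsig x' y' h2).2.1]
    by_cases hB : ∃ x y x' y' z, S x y ∧ S x' y' ∧ p z = 2 * r + 1 ∧ x ≤ z ∧ z ≤ y'
    · -- no passage through the first class
      obtain ⟨x0, y0, x0', y0', z0, hx0, hx0', hz0, hxz0, hzy0⟩ := hB
      have hB0 := (through_branch r d (fun u => 2 * r + 1 - p u) hht hadj' x0 z0 y0'
        (by omega) hxz0 hzy0).2.2
      rw [(hsig _ _ hx0).2.1, (hsig _ _ hx0').2.2.1] at hB0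
      refine no_cycle S d c (fun x y h => (hsig x y h).1) hds hcs ?_
        (fun x y x' y' h1 h2 h3 h4 h5 => hidc x y x' y' h1 h2 h3 h5 h4)
      intro x y x' y' h1 h2 hxy'
      rcases htri x y' hxy' with ⟨z, hz, hxz, hzy⟩ | ⟨z, hz, hxz, hzy⟩ | ⟨e1, e2⟩
      · exfalso
        have hA0 := (through_branch r c p hht hc x z y' hz hxz hzy).2.2
        rw [(hsig _ _ h1).2.1, (hsig _ _ h2).2.2.1] at hA0
        omega
      · obtain ⟨e1, e2, -⟩ := through_branch r d (fun u => 2 * r + 1 - p u) hht hadj' x z y'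
          (by omega) hxz hzy
        refine ⟨e1.trans e2.symm, Or.inr ?_⟩
        intro h3
        have hFB : FB x' := by
          rw [(hsig _ _ h2).2.2.2.2.1, ← (hsig _ _ h1).2.2.2.2.1]
          exact ⟨z, hz, e1, hxz⟩
        obtain ⟨z', hz', e4, hxz'⟩ := hFB
        have e5 : z' = z := hd0 z' z hz' hz (by rw [← e4, h3, e2])
        rw [e5] at hxz'
        exact hxz'.trans hzy
      · exact ⟨e2, Or.inl e1⟩
    · refine no_cycle S c d (fun x y h => (hsig x y h).1) hcs hds ?_ hidc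
      intro x y x' y' h1 h2 hxy'
      rcases htri x y' hxy' with ⟨z, hz, hxz, hzy⟩ | ⟨z, hz, hxz, hzy⟩ | ⟨e1, e2⟩
      · obtain ⟨e1, e2, -⟩ := through_branch r c p hht hc x z y' hz hxz hzy
        refine ⟨e1.trans e2.symm, Or.inr ?_⟩
        intro h3
        have hFA : FA x' := by
          rw [(hsig _ _ h2).2.2.2.1, ← (hsig _ _ h1).2.2.2.1]
          exact ⟨z, hz, e1, hxz⟩
        obtain ⟨z', hz', e4, hxz'⟩ := hFA
        have e5 : z' = z := hc0 z' z hz' hz (by rw [← e4, h3, e2])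
        rw [e5] at hxz'
        exact hxz'.trans hzy
      · exact absurd ⟨x, y, x', y', z, h1, h2, hz, hxz, hzy⟩ hB
      · exact ⟨e1, Or.inl e2⟩
  have hmain := dim_le_of_classes sig hac
  have hcard : Fintype.card (Fin (2 * r + 2) × Fin (2 * r + 2) × (Prop × Prop) × (Prop × Prop) ×
      (Prop × Prop)) = 256 * (r + 1) ^ 2 := by
    simp only [Fintype.card_prod, Fintype.card_fin, Fintype.card_prop]
    ring
  exact ⟨_, hcard, hmain⟩

end Pool.Agent.Lib.MP_35c2eb_co.Ins
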